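import Pool.Agent.D0H61.AB.Stm

/-! # AB 2 PR: `S_MER → S_PR` -/

set_option autoImplicit false

namespace Pool.Agent.D0H20.AB

open Filter Topology Finset Pool.Agent.D0H61.AB

/-- the small primes -/
theorem small (z x : ℝ) (hx : 2 ≤ x) (P : Finset ℕ) (hP : ∀ p ∈ P, p.Prime ∧ (p : ℝ) ≤ z) (hz : 0 ≤ z) :
    ∏ p ∈ P, (1 + x * (1 / ((p : ℝ) * Real.log p))) ≤ Real.exp (z * (2 * Real.log x)) := by
  have hlog : 0 < Real.log x := Real.log_pos (by linarith)
  have h1 : ∀ p ∈ P, (1 + x * (1 / ((p : ℝ) * Real.log p))) ≤ x ^ 2 := by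
    intro p hp
    have hp2 : (2 : ℝ) ≤ p := by exact_mod_cast (hP p hp).1.two_le
    have hl : (1 : ℝ) / 2 ≤ Real.log p := by
      have := Real.log_two_gt_d9
      have h3 := Real.log_le_log (by norm_num : (0 : ℝ) < 2) hp2
      linarith
    have hpl : 1 ≤ (p : ℝ) * Real.log p := by nlinarith
    have h4 : 1 / ((p : ℝ) * Real.log p) ≤ 1 := by
      rw [div_le_one (by linarith)]
      exact hpl
    nlinarith
  have h2 : ∏ p ∈ P, (1 + x * (1 / ((p : ℝ) * Real.log p))) ≤ ∏ _p ∈ P, x ^ 2 := by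
    refine Finset.prod_le_prod (fun p hp => ?_) h1
    have hp2 : (2 : ℝ) ≤ p := by exact_mod_cast (hP p hp).1.two_le
    have := Real.log_nonneg (by linarith : (1 : ℝ) ≤ p)
    positivity
  refine h2.trans ?_
  rw [Finset.prod_const]
  have h3 : (P.card : ℝ) ≤ z := by
    have h4 : P ⊆ Icc 1 ⌊z⌋₊ := by
      intro p hp
      rw [mem_Icc]
      exact ⟨(hP p hp).1.one_lt.le, Nat.le_floor (hP p hp).2⟩
    have h5 := Finset.card_le_card h4
    rw [Nat.card_Icc, Nat.add_sub_cancel] at h5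
    exact le_trans (by exact_mod_cast h5) (Nat.floor_le hz)
  have h6 : (x ^ 2) ^ P.card = Real.exp (P.card * (2 * Real.log x)) := by
    rw [Real.exp_nat_mul]
    congr 1
    rw [two_mul, Real.exp_add, Real.exp_log (by linarith)]
    ring
  rw [h6]
  refine Real.exp_le_exp.2 (mul_le_mul_of_nonneg_right h3 (by linarith))

/-- the large primes -/
theorem large (x : ℝ) (hx : 0 ≤ x) (P : Finset ℕ) (hP : ∀ p ∈ P, p.Prime) (S : ℝ)
    (hS : ∑ p ∈ P, 1 / ((p : ℝ) * Real.log p) ≤ S) :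
    ∏ p ∈ P, (1 + x * (1 / ((p : ℝ) * Real.log p))) ≤ Real.exp (x * S) := by
  have h2 : ∏ p ∈ P, (1 + x * (1 / ((p : ℝ) * Real.log p))) ≤
      ∏ p ∈ P, Real.exp (x * (1 / ((p : ℝ) * Real.log p))) := by
    refine Finset.prod_le_prod (fun p hp => ?_) (fun p hp => ?_)
    · have hp2 : (2 : ℝ) ≤ p := by exact_mod_cast (hP p hp).two_le
      have := Real.log_nonneg (by linarith : (1 : ℝ) ≤ p)
      positivity
    · rw [add_comm]
      exact Real.add_one_le_exp _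
  refine h2.trans ?_
  rw [← Real.exp_sum, ← Finset.mul_sum]
  exact Real.exp_le_exp.2 (mul_le_mul_of_nonneg_left hS hx)

theorem t_PR : S_MER → S_PR := by
  intro hM ε hε
  obtain ⟨η, hη0, hη1, hη2⟩ : ∃ η : ℝ, 0 < η ∧ η ≤ 1 / 2 ∧ η ≤ ε / 8 :=
    ⟨min (1 / 2) (ε / 8), lt_min (by norm_num) (by positivity), min_le_left _ _, min_le_right _ _⟩
  obtain ⟨z₀, hz₀, hz⟩ := hM η hη0
  have e1 : ∀ᶠ x : ℝ in atTop, ‖Real.log x‖ ≤ (Real.sqrt ε / 2) * ‖x ^ (η / 2)‖ :=
    (isLittleO_log_rpow_atTop (by positivity)).def (by positivity)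
  have e2 : ∀ᶠ x : ℝ in atTop, z₀ ≤ x ^ (1 - η) :=
    (tendsto_rpow_atTop (by linarith)).eventually_ge_atTop z₀
  obtain ⟨X, hX⟩ := eventually_atTop.1 (e1.and e2)
  have hm : (2 : ℝ) ≤ max X 2 := le_max_right _ _
  refine ⟨1 / max X 2, by positivity, ?_, ?_⟩
  · rw [div_lt_one (by linarith)]
    linarith
  intro σ hσ hσ0 P hP
  obtain ⟨x, hxσ⟩ : ∃ x : ℝ, x = 1 / σ := ⟨_, rfl⟩
  have hx : max X 2 ≤ x := by
    rw [hxσ, le_div_iff₀ hσ]
    rw [le_div_iff₀ (by linarith)] at hσ0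
    linarith
  have hx2 : 2 ≤ x := hm.trans hx
  obtain ⟨a1, a2⟩ := hX x ((le_max_left _ _).trans hx)
  have hσx : σ = 1 / x := by
    rw [hxσ]
    field_simp
  have hlog : 0 < Real.log x := Real.log_pos (by linarith)
  rw [← hxσ]
  have hx0 : 0 < x := by linarith
  obtain ⟨z, hzd⟩ : ∃ z : ℝ, z = x ^ (1 - η) := ⟨_, rfl⟩
  have hz0 : 0 ≤ z := by rw [hzd]; positivity
  have hlz : Real.log z = (1 - η) * Real.log x := by rw [hzd, Real.log_rpow hx0]
  -- the logarithms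
  have hl2 : Real.log x ^ 2 ≤ ε / 4 * x ^ η := by
    rw [Real.norm_of_nonneg hlog.le, Real.norm_of_nonneg (by positivity)] at a1
    have h1 := pow_le_pow_left₀ hlog.le a1 2
    have h2 : (Real.sqrt ε / 2 * x ^ (η / 2)) ^ 2 = ε / 4 * x ^ η := by
      have h3 : x ^ η = x ^ (η / 2) * x ^ (η / 2) := by
        rw [← Real.rpow_add hx0]
        congr 1
        ring
      rw [h3]
      have h4 := Real.mul_self_sqrt hε.le
      calc (Real.sqrt ε / 2 * x ^ (η / 2)) ^ 2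
          = (Real.sqrt ε * Real.sqrt ε) / 4 * (x ^ (η / 2) * x ^ (η / 2)) := by ring
        _ = _ := by rw [h4]
    rw [h2] at h1
    exact h1
  have hzx : z * x ^ η = x := by
    rw [hzd, ← Real.rpow_add hx0]
    simp
  have hprod : ∏ p ∈ P, (1 + 1 / ((p : ℝ) * (σ * Real.log p))) =
      ∏ p ∈ P, (1 + x * (1 / ((p : ℝ) * Real.log p))) := by
    refine Finset.prod_congr rfl (fun p _ => ?_)
    rw [hσx]
    congr 1
    rw [mul_one_div, one_div, one_div, mul_inv, mul_inv, inv_inv, div_eq_mul_inv, mul_inv]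
    ring
  rw [hprod, ← Finset.prod_filter_mul_prod_filter_not P (fun p : ℕ => (p : ℝ) ≤ z)]
  have b1 := small z x hx2 (P.filter fun p : ℕ => (p : ℝ) ≤ z)
    (fun p hp => ⟨hP p (mem_filter.1 hp).1, (mem_filter.1 hp).2⟩) hz0
  have b2 := large x hx0.le (P.filter fun p : ℕ => ¬ (p : ℝ) ≤ z)
    (fun p hp => hP p (mem_filter.1 hp).1) ((1 + η) / Real.log z)
    (hz z (by rw [hzd]; exact a2) _
      (fun p hp => ⟨hP p (mem_filter.1 hp).1, not_le.1 (mem_filter.1 hp).2⟩))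
  have hn : 0 ≤ ∏ p ∈ P.filter (fun p : ℕ => ¬ (p : ℝ) ≤ z), (1 + x * (1 / ((p : ℝ) * Real.log p))) := by
    refine Finset.prod_nonneg (fun p hp => ?_)
    have hp2 : (2 : ℝ) ≤ p := by exact_mod_cast (hP p (mem_filter.1 hp).1).two_le
    have := Real.log_nonneg (by linarith : (1 : ℝ) ≤ p)
    positivity
  refine (mul_le_mul b1 b2 hn (Real.exp_pos _).le).trans ?_
  rw [← Real.exp_add]
  refine Real.exp_le_exp.2 ?_
  have c1 : z * (2 * Real.log x) ≤ (ε / 2) * (x / Real.log x) := by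
    rw [mul_div_assoc', le_div_iff₀ hlog]
    have h1 : z * (2 * Real.log x) * Real.log x = 2 * (z * Real.log x ^ 2) := by ring
    have h2 : z * Real.log x ^ 2 ≤ z * (ε / 4 * x ^ η) := mul_le_mul_of_nonneg_left hl2 hz0
    have h3 : z * (ε / 4 * x ^ η) = ε / 4 * x := by
      rw [← hzx]
      have : x ^ η = x ^ η := rfl
      rw [hzx]
      calc z * (ε / 4 * x ^ η) = ε / 4 * (z * x ^ η) := by ring
        _ = ε / 4 * x := by rw [hzx]
    rw [h1]
    linarith
  have c2 : x * ((1 + η) / Real.log z) ≤ (1 + ε / 2) * (x / Real.log x) := by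
    rw [hlz]
    have h1 : (1 + η) / ((1 - η) * Real.log x) = (1 + η) / (1 - η) * (1 / Real.log x) := by
      rw [div_mul_div_comm, mul_one]
    rw [h1]
    have h2 : (1 + η) / (1 - η) ≤ 1 + ε / 2 := by
      rw [div_le_iff₀ (by linarith)]
      nlinarith
    have h3 : 0 ≤ x * (1 / Real.log x) := by positivity
    calc x * ((1 + η) / (1 - η) * (1 / Real.log x)) = (1 + η) / (1 - η) * (x * (1 / Real.log x)) := by ring
      _ ≤ (1 + ε / 2) * (x * (1 / Real.log x)) := mul_le_mul_of_nonneg_right h2 h3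
      _ = (1 + ε / 2) * (x / Real.log x) := by rw [mul_one_div]
  have c3 : (1 + ε) / (σ * Real.log x) = (1 + ε) * (x / Real.log x) := by
    rw [hσx]
    field_simp
  rw [c3]
  nlinarith

end Pool.Agent.D0H20.AB
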